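import Mathlib
import Pool.Agent.S15436

/-!
Question Q1, negated form, in the words of the problem file.

Let `ℵ_α` be a singular strong limit cardinal of uncountable cofinality (for example `ℶ_{δ + ω₁}`
for any ordinal `δ`).  Then `P(M_α)`, where `|M_α| = ∑_{ν < α} 2 ^ ℵ_ν`, can be divided into exactly
`ℵ_α` non-empty classes (a true partition) none of which, with the induced order, is
`ℵ_α`-universally ordered.  One linear order `L` of cardinality `ℵ_α`, the lexicographic power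
`K ^ ℕ` of an ordinal `K`, embeds in none of the classes.  The same holds for every number `κ` of
classes between `2 ^ (cof ℵ_α ^ ℵ₀)`, which is smaller than `ℵ_α`, and `|P(M_α)|`.

The combinatorial heart is `Pool.Agent.S15436.main_abstract`; here it is applied to a set `MM b` cut
into blocks `BB b w`, `w` in a well ordered set of type the cofinality, whose sizes `kk b w` grow so
fast that `kk b w` is at least `2 ^ (∑_{v < w} kk b v)`.
-/

set_option autoImplicit false

namespace Pool.Agent.Results.MP_d6c85c_lc.NoUniversallyOrderedClass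

open Cardinal Set Function Order
open scoped Ordinal

/-- The partially ordered set `Q` embeds in the partially ordered set `P`: there is an injective map
`f : Q → P` with `x ≤ y ↔ f x ≤ f y`. -/
def Embeds (Q P : Type) [PartialOrder Q] [PartialOrder P] : Prop :=
  ∃ f : Q → P, Function.Injective f ∧ ∀ x y : Q, x ≤ y ↔ f x ≤ f y

/-- `P` is `κ`-universally ordered: every partially ordered set of cardinality `κ` embeds in `P`. -/
def UniversallyOrdered (κ : Cardinal.{0}) (P : Type) [PartialOrder P] : Prop :=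
  ∀ (Q : Type) [PartialOrder Q], #Q = κ → Embeds Q P

section General

open Pool.Agent.S15436 (Below main_abstract)

/-- a cofinal family of cardinals below `κ`, indexed by any type of size the cofinality of `κ` -/
theorem exists_cofinal {κ : Cardinal.{0}} {W : Type} (hW : #W = κ.ord.cof) :
    ∃ b : W → Cardinal.{0}, (∀ w, b w < κ) ∧ ∀ c < κ, ∃ w, c ≤ b w := by
  obtain ⟨s, hs, hs'⟩ := Order.exists_cof_eq (α := κ.ord.ToType)
  rw [Ordinal.cof_toType] at hs'
  obtain ⟨e⟩ := Cardinal.eq.1 (hW.trans hs'.symm)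
  refine ⟨fun w => ((e w).1.toOrd : Ordinal).card, fun w => Cardinal.lt_ord.1 (e w).1.toOrd.2,
    fun c hc => ?_⟩
  obtain ⟨i, hi, hi'⟩ := hs (Ordinal.ToType.mk ⟨c.ord, Cardinal.ord_lt_ord.2 hc⟩)
  refine ⟨e.symm ⟨i, hi⟩, ?_⟩
  beta_reduce
  rw [e.apply_symm_apply]
  have h1 : (⟨c.ord, Cardinal.ord_lt_ord.2 hc⟩ : Set.Iio κ.ord) ≤ i.toOrd := by
    rw [← OrderIso.le_iff_le Ordinal.ToType.mk]
    simpa using hi'
  have h2 : c.ord ≤ (i.toOrd : Ordinal) := h1
  exact Cardinal.ord_le.1 h2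

variable {κ : Cardinal.{0}} {W : Type} [LinearOrder W] [WellFoundedLT W] (b : W → Cardinal.{0})

/-- the sizes of the blocks -/
noncomputable def kk : W → Cardinal.{0} :=
  WellFounded.fix (wellFounded_lt (α := W)) (fun w ih =>
    max (max ℵ₀ (b w)) (2 ^ Cardinal.sum (fun v : Iio w => ih v.1 v.2)))

theorem kk_eq (w : W) :
    kk b w = max (max ℵ₀ (b w)) (2 ^ Cardinal.sum (fun v : Iio w => kk b v.1)) :=
  WellFounded.fix_eq _ _ _

theorem aleph0_le_kk (w : W) : ℵ₀ ≤ kk b w := by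
  rw [kk_eq]; exact (le_max_left _ _).trans (le_max_left _ _)

theorem b_le_kk (w : W) : b w ≤ kk b w := by
  rw [kk_eq]; exact (le_max_right _ _).trans (le_max_left _ _)

theorem pow_le_kk (w : W) : 2 ^ Cardinal.sum (fun v : Iio w => kk b v.1) ≤ kk b w := by
  conv_rhs => rw [kk_eq]
  exact le_max_right _ _

theorem kk_lt (hκ : IsStrongLimit κ) (hunc : ℵ₀ < κ) (hb : ∀ w, b w < κ)
    (hI : ∀ w : W, #(Iio w) < κ.ord.cof) (w : W) : kk b w < κ := by
  induction w using WellFoundedLT.induction with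
  | ind w ih =>
    rw [kk_eq]
    refine max_lt (max_lt hunc (hb w)) (hκ.isStrongPrelimit ?_)
    refine (sum_le_mk_mul_iSup _).trans_lt
      (mul_lt_of_lt hκ.aleph0_le ((hI w).trans_le (Ordinal.cof_ord_le κ)) ?_)
    exact iSup_lt_of_lt_cof_ord (hI w) (fun v => ih v.1 v.2)

/-- the block of index `w` -/
abbrev BB (w : W) : Type := (kk b w).out

/-- the ground set -/
abbrev MM : Type := Σ w : W, BB b w

/-- the rank function -/
abbrev rr (m : MM b) : W := m.1

theorem mk_lt_le (w : W) : #{m : MM b // rr b m < w} ≤ Cardinal.sum (fun v : Iio w => kk b v.1) := by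
  have h : #{m : MM b // rr b m < w} ≤ #(Σ v : Iio w, BB b v.1) := by
    refine mk_le_of_injective (f := fun m => (⟨⟨m.1.1, m.2⟩, m.1.2⟩ : Σ v : Iio w, BB b v.1)) ?_
    rintro ⟨⟨v, c⟩, hv⟩ ⟨⟨v', c'⟩, hv'⟩ h
    simp only [Sigma.mk.injEq, Subtype.mk.injEq] at h
    obtain ⟨rfl, h2⟩ := h
    simp only [heq_eq_eq] at h2
    subst h2
    rfl
  refine h.trans ?_
  rw [mk_sigma]
  refine (sum_le_sum _ _ (fun v => ?_))
  rw [mk_out]

theorem hstep (g : ℕ → W) (hg : StrictMono g) (n : ℕ) :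
    #(Set {m : MM b // rr b m < g n}) ≤ #(Below (rr b) g) := by
  rw [mk_set]
  calc (2 : Cardinal.{0}) ^ #{m : MM b // rr b m < g n}
        ≤ 2 ^ Cardinal.sum (fun v : Iio (g n) => kk b v.1) :=
        power_le_power_left two_ne_zero (mk_lt_le b _)
    _ ≤ kk b (g n) := pow_le_kk b _
    _ = #(BB b (g n)) := (mk_out _).symm
    _ ≤ #(Below (rr b) g) := by
        refine mk_le_of_injective
          (f := fun c => (⟨⟨g n, c⟩, ⟨n + 1, hg (by omega)⟩⟩ : Below (rr b) g)) ?_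
        intro c d h
        simpa using h

theorem hinf (g : ℕ → W) (hg : StrictMono g) : ℵ₀ ≤ #(Below (rr b) g) := by
  have h1 : ℵ₀ ≤ #(BB b (g 0)) := by rw [mk_out]; exact aleph0_le_kk b _
  refine h1.trans ?_
  refine mk_le_of_injective
    (f := fun c => (⟨⟨g 0, c⟩, ⟨1, hg (by omega)⟩⟩ : Below (rr b) g)) ?_
  intro c d h
  simpa using h

theorem mk_le_lt (hκ : IsStrongLimit κ) (hk : ∀ w, kk b w < κ) (w : W) :
    #{m : MM b // rr b m ≤ w} < κ := by
  have h : #{m : MM b // rr b m ≤ w} ≤ #({m : MM b // rr b m < w} ⊕ BB b w) := by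
    classical
    refine mk_le_of_surjective (f := fun s : {m : MM b // rr b m < w} ⊕ BB b w =>
      Sum.elim (fun m => (⟨m.1, m.2.le⟩ : {m : MM b // rr b m ≤ w})) (fun c => ⟨⟨w, c⟩, le_rfl⟩) s) ?_
    rintro ⟨⟨v, c⟩, hv⟩
    rcases lt_or_eq_of_le hv with hlt | heq
    · exact ⟨Sum.inl ⟨⟨v, c⟩, hlt⟩, rfl⟩
    · have : v = w := heq
      subst this
      exact ⟨Sum.inr c, rfl⟩
  refine h.trans_lt ?_
  rw [mk_sum, lift_id, lift_id, mk_out]
  refine add_lt_of_lt hκ.aleph0_le ?_ (hk w)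
  refine (mk_lt_le b w).trans_lt ((cantor _).trans_le ((pow_le_kk b w))|>.trans (hk w))

theorem mk_MM (hκ : IsStrongLimit κ) (hk : ∀ w, kk b w < κ) (hW : #W ≤ κ)
    (hb : ∀ c < κ, ∃ w, c ≤ b w) : #(MM b) = κ := by
  refine le_antisymm ?_ ?_
  · rw [mk_sigma]
    refine (sum_le_sum _ (fun _ : W => κ) (fun w => ?_)).trans ?_
    · rw [mk_out]; exact (hk w).le
    · rw [sum_const']
      exact (mul_le_mul' hW le_rfl).trans (mul_eq_self hκ.aleph0_le).le
  · by_contra hlt
    rw [not_le] at hlt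
    obtain ⟨w, hw⟩ := hb _ (hκ.isStrongPrelimit hlt)
    have h1 : #(BB b w) ≤ #(MM b) :=
      mk_le_of_injective (f := fun c => (⟨w, c⟩ : MM b)) (fun a b h => by simpa using h)
    rw [mk_out] at h1
    exact absurd (hw.trans ((b_le_kk b w).trans h1)) (not_le.2 (cantor _))

omit [WellFoundedLT W] in
theorem exists_bound (hW : ℵ₀ < Order.cof W) (x : ℕ → W) : ∃ w, ∀ n, x n ≤ w := by
  by_contra hcon
  push Not at hcon
  have h1 : IsCofinal (Set.range x) := fun w => by
    obtain ⟨n, hn⟩ := hcon w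
    exact ⟨x n, ⟨n, rfl⟩, hn.le⟩
  have h2 := Order.cof_le h1
  exact absurd (h2.trans (Cardinal.le_aleph0_iff_set_countable.2 (Set.countable_range x)))
    (not_le.2 hW)

theorem mk_seq (hκ : IsStrongLimit κ) (hunc : ℵ₀ < κ) (hk : ∀ w, kk b w < κ) (hW : #W ≤ κ)
    (hb : ∀ c < κ, ∃ w, c ≤ b w) (hcof : ℵ₀ < Order.cof W)
    {K : Type} (hK : #K = κ) : #(ℕ → K) = κ := by
  have h0 : #(ℕ → K) = #(ℕ → MM b) := by
    rw [← power_def, ← power_def, hK, mk_MM b hκ hk hW hb]
  rw [h0]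
  refine le_antisymm ?_ ?_
  · have hcov : (Set.univ : Set (ℕ → MM b)) ⊆ ⋃ w : W, {x | ∀ n, rr b (x n) ≤ w} := by
      intro x _
      rw [mem_iUnion]
      exact exists_bound hcof (fun n => rr b (x n))
    rw [← mk_univ]
    refine (mk_le_mk_of_subset hcov).trans ((mk_iUnion_le_sum_mk).trans ?_)
    refine (sum_le_sum _ (fun _ => κ) (fun w => ?_)).trans ?_
    · have h3 : #{x : ℕ → MM b | ∀ n, rr b (x n) ≤ w} ≤ #(ℕ → {m : MM b // rr b m ≤ w}) := by
        refine mk_le_of_injective (f := fun x n => ⟨x.1 n, x.2 n⟩) ?_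
        intro x y h
        apply Subtype.ext
        funext n
        have := congrFun h n
        simpa using this
      refine h3.trans ?_
      rw [← power_def, mk_nat]
      have h4 : (#{m : MM b // rr b m ≤ w}) ^ (ℵ₀ : Cardinal.{0}) ≤
          2 ^ (#{m : MM b // rr b m ≤ w} * ℵ₀) := by
        rw [power_mul]
        exact power_le_power_right (cantor _).le
      refine h4.trans (hκ.isStrongPrelimit ?_).le
      exact mul_lt_of_lt hκ.aleph0_le (mk_le_lt b hκ hk w) hunc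
    · rw [sum_const']
      exact (mul_le_mul' hW le_rfl).trans (mul_eq_self hκ.aleph0_le).le
  · rw [← mk_MM b hκ hk hW hb]
    exact mk_le_of_injective (f := fun m (_ : ℕ) => m) (fun a b h => congrFun h 0)

end General

/-- For a strong limit cardinal `ℵ_α > ℵ₀` the sum of the problem equals `ℵ_α`. -/
theorem sum_eq {α : Ordinal.{0}} (hα : IsStrongLimit (ℵ_ α)) (hunc : ℵ₀ < ℵ_ α) :
    Cardinal.sum (fun ν : Set.Iio α => (2 : Cardinal.{0}) ^ ℵ_ ν.1) =
      Cardinal.lift.{1} (ℵ_ α) := by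
  refine le_antisymm ?_ ?_
  · refine (sum_le_sum _ (fun _ => ℵ_ α) (fun ν => ?_)).trans ?_
    · exact (hα.isStrongPrelimit (aleph_lt_aleph.2 ν.2)).le
    · rw [sum_const, Cardinal.mk_Iio_ordinal, lift_id']
      have h1 : α.card ≤ ℵ_ α := α.card_le_aleph
      calc _ ≤ Cardinal.lift.{1} (ℵ_ α) * Cardinal.lift.{1} (ℵ_ α) := by
            gcongr
            exact Cardinal.lift_le.2 h1
        _ = Cardinal.lift.{1} (ℵ_ α) := mul_eq_self (aleph0_le_lift.2 (aleph0_le_aleph α))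
  · by_contra hlt
    rw [not_le] at hlt
    obtain ⟨c, hc⟩ := mem_range_lift_of_le hlt.le
    rw [← hc, lift_lt] at hlt
    obtain ⟨ν, hν⟩ := mem_range_aleph_iff.2 (le_max_right c ℵ₀)
    have hνα : ν < α := by
      rw [← aleph_lt_aleph, hν]
      exact max_lt hlt hunc
    have h1 : Cardinal.lift.{1} ((2 : Cardinal.{0}) ^ ℵ_ ν) ≤ Cardinal.lift.{1} c := by
      rw [hc]
      exact lift_le_sum (fun ν : Set.Iio α => (2 : Cardinal.{0}) ^ ℵ_ ν.1) ⟨ν, hνα⟩
    rw [lift_le] at h1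
    exact absurd (h1.trans ((le_max_left c ℵ₀).trans hν.ge)) (not_le.2 (cantor _))

/-- the colouring and the linear order, for a singular strong limit cardinal of uncountable
cofinality -/
theorem exists_colouring {κ : Cardinal.{0}} (hκ : IsStrongLimit κ) (hcof : ℵ₀ < κ.ord.cof)
    (hsing : κ.ord.cof < κ) :
    ∃ (L : Type) (_ : LinearOrder L), #L = κ ∧ ∀ M : Type, #M = κ →
      ∃ (C : Type) (c : Set M → C), #C = 2 ^ (κ.ord.cof ^ ℵ₀) ∧ #C < κ ∧
        ∀ f : L → Set M, (∀ x y, x < y → f x < f y) → ∃ x y, c (f x) ≠ c (f y) := by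
  let W : Type := (κ.ord.cof).ord.ToType
  have hW : #W = κ.ord.cof := mk_ord_toType _
  have hcofW : Order.cof W = κ.ord.cof := by
    rw [Ordinal.cof_toType, Ordinal.cof_ord_cof]
  have hI : ∀ w : W, #(Iio w) < κ.ord.cof := by
    intro w
    have := mk_Iio_lt w (by simp [W])
    rwa [hW] at this
  obtain ⟨b, hb1, hb2⟩ := exists_cofinal hW
  have hunc : ℵ₀ < κ := hcof.trans hsing
  have hk := kk_lt b hκ hunc hb1 hI
  have hWle : #W ≤ κ := by rw [hW]; exact hsing.le
  have hseqW : #(ℕ → W) = κ.ord.cof ^ ℵ₀ := by rw [← power_def, hW, mk_nat]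
  have hseqlt : (κ.ord.cof ^ ℵ₀ : Cardinal.{0}) < κ := by
    calc (κ.ord.cof : Cardinal.{0}) ^ (ℵ₀ : Cardinal.{0})
          ≤ (2 ^ (κ.ord.cof : Cardinal.{0})) ^ (ℵ₀ : Cardinal.{0}) :=
          power_le_power_right (cantor _).le
      _ = 2 ^ (κ.ord.cof : Cardinal.{0}) := by
          rw [← power_mul, mul_aleph0_eq hcof.le]
      _ < κ := hκ.isStrongPrelimit hsing
  let K : Type := κ.ord.ToType
  have hK : #K = κ := mk_ord_toType _
  have hL : #(Lex (ℕ → K)) = κ := mk_seq b hκ hunc hk hWle hb2 (by rw [hcofW]; exact hcof) hK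
  refine ⟨Lex (ℕ → K), inferInstance, hL, fun M hM => ?_⟩
  obtain ⟨c, hc⟩ := Pool.Agent.S15436.main_abstract (K := K) (rr b) hκ hK (mk_le_lt b hκ hk)
    (by rw [hseqW]; exact hseqlt) (hstep b) (hinf b)
  have he : #M = #(MM b) := by rw [hM, mk_MM b hκ hk hWle hb2]
  obtain ⟨e⟩ := Cardinal.eq.1 he
  have hcol : #((ℕ → W) → Bool) = 2 ^ (κ.ord.cof ^ ℵ₀ : Cardinal.{0}) := by
    rw [← power_def, hseqW, mk_bool]
  refine ⟨(ℕ → W) → Bool, fun A => c (e '' A), hcol, ?_, fun f hf => ?_⟩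
  · rw [hcol]; exact hκ.isStrongPrelimit hseqlt
  · obtain ⟨x, y, hxy⟩ := hc (fun x => e '' (f (toLex x))) (by
      intro x y n h1 h2
      have hlt : toLex x < toLex y := ⟨n, h1, h2⟩
      have h3 := hf _ _ hlt
      exact e.injective.image_strictMono h3)
    exact ⟨toLex x, toLex y, hxy⟩

/-- from a colouring to a partition with a prescribed number of classes -/
theorem exists_partition {X C : Type} (c : X → C) (κ : Cardinal.{0}) (h0 : ℵ₀ ≤ κ)
    (h1 : #C ≤ κ) (h2 : κ ≤ #X) :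
    ∃ D : Set (Set X), Setoid.IsPartition D ∧ #D = κ ∧ ∀ A ∈ D, ∀ x ∈ A, ∀ y ∈ A, c x = c y := by
  classical
  obtain ⟨S, hS⟩ := Cardinal.le_mk_iff_exists_set.1 h2
  let c' : X → X ⊕ C := fun x => if x ∈ S then Sum.inl x else Sum.inr (c x)
  have hc' : ∀ x y, c' x = c' y → c x = c y := by
    intro x y hxy
    by_cases hx : x ∈ S <;> by_cases hy : y ∈ S <;> simp [c', hx, hy] at hxy
    · rw [hxy]
    · exact hxy
  refine ⟨(Setoid.ker c').classes, Setoid.isPartition_classes _, ?_, ?_⟩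
  · have e1 : #((Setoid.ker c').classes) = #(Set.range c') :=
      Cardinal.mk_congr ((Setoid.quotientEquivClasses (Setoid.ker c')).symm.trans
        (Setoid.quotientKerEquivRange c'))
    rw [e1]
    refine le_antisymm ?_ ?_
    · have hsub : Set.range c' ⊆ (Sum.inl '' S) ∪ (Sum.inr '' (Set.univ : Set C)) := by
        rintro _ ⟨x, rfl⟩
        by_cases hx : x ∈ S
        · left; exact ⟨x, hx, by simp [c', hx]⟩
        · right; exact ⟨c x, trivial, by simp [c', hx]⟩
      refine (mk_le_mk_of_subset hsub).trans ((mk_union_le _ _).trans ?_)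
      refine (add_le_add (mk_image_le.trans hS.le) (mk_image_le.trans ?_)).trans
        (add_eq_self h0).le
      rw [mk_univ]; exact h1
    · rw [← hS]
      refine mk_le_of_injective (f := fun x : S => (⟨c' x.1, ⟨x.1, rfl⟩⟩ : Set.range c')) ?_
      intro x y h
      have h' : c' x.1 = c' y.1 := congrArg Subtype.val h
      simp only [c', x.2, y.2, if_true, Sum.inl.injEq] at h'
      exact Subtype.ext h'
  · rintro A ⟨z, rfl⟩ x hx y hy
    exact hc' x y ((show c' x = c' z from hx).trans (show c' y = c' z from hy).symm)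

/-- `ℶ_{δ + ω₁}` is a singular strong limit cardinal of cofinality `ℵ₁`. -/
theorem example_beth (δ : Ordinal.{0}) :
    (ℶ_ (δ + ω₁)).IsStrongLimit ∧ (ℶ_ (δ + ω₁)).IsSingular ∧ (ℶ_ (δ + ω₁)).ord.cof = ℵ₁ := by
  have hlim : IsSuccLimit (ω₁ : Ordinal.{0}) := isSuccLimit_omega 1
  have hlim2 : IsSuccLimit (δ + ω₁ : Ordinal.{0}) := Ordinal.isSuccLimit_add δ hlim
  have hcof : (ℶ_ (δ + ω₁)).ord.cof = ℵ₁ := by
    have h1 : (ℶ_ (δ + ω₁)).ord.cof = (δ + ω₁ : Ordinal.{0}).cof :=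
      Ordinal.cof_map_of_isNormal (f := fun o => (ℶ_ o).ord)
        (isNormal_ord.comp isNormal_beth) hlim2
    rw [h1, Ordinal.cof_add _ (Ordinal.omega_pos 1).ne', cof_omega_one]
  refine ⟨isStrongLimit_beth.2 hlim2.isSuccPrelimit, ⟨aleph0_le_beth _, ?_⟩, hcof⟩
  rw [hcof]
  refine ne_of_lt ?_
  refine (aleph_le_beth 1).trans_lt (beth_lt_beth.2 ?_)
  refine lt_of_lt_of_le ?_ (le_add_self : (ω₁ : Ordinal.{0}) ≤ δ + ω₁)
  exact Ordinal.one_lt_omega0.trans_le (Ordinal.omega0_le_omega 1)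

/-- **Q1, negated form.**  For every singular strong limit cardinal `ℵ_α` of uncountable
cofinality there is a linear order `L` of cardinality `ℵ_α` such that, for every set `M` of
cardinality `∑_{ν < α} 2 ^ ℵ_ν`, the power set of `M`, ordered by inclusion, can be divided into
exactly `ℵ_α` non-empty classes, in none of which `L` embeds; so none of them is `ℵ_α`-universally
ordered.  The same is true for each number `κ` of classes with
`2 ^ (cof ℵ_α ^ ℵ₀) ≤ κ ≤ |P(M)|`.  Such `α` exist, and there are arbitrarily large ones: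
`ℵ_α = ℶ_{δ + ω₁}` for any ordinal `δ`. -/
theorem result :
    (∀ α : Ordinal.{0}, (ℵ_ α).IsSingular → (ℵ_ α).IsStrongLimit → ℵ₀ < (ℵ_ α).ord.cof →
      ∃ (L : Type) (_ : LinearOrder L), #L = ℵ_ α ∧
        ∀ M : Type,
          Cardinal.lift.{1} #M =
            Cardinal.sum (fun ν : Set.Iio α => (2 : Cardinal.{0}) ^ ℵ_ ν.1) →
          ∀ κ : Cardinal.{0},
            (κ = ℵ_ α ∨ (2 ^ ((ℵ_ α).ord.cof ^ ℵ₀) ≤ κ ∧ κ ≤ #(Set M))) →
            ∃ D : Set (Set (Set M)), Setoid.IsPartition D ∧ #D = κ ∧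
              ∀ A ∈ D, ¬ Embeds L A ∧ ¬ UniversallyOrdered (ℵ_ α) A) ∧
    (∀ δ : Ordinal.{0}, ∃ α : Ordinal.{0}, δ < α ∧ ℵ_ α = ℶ_ (δ + ω₁) ∧
      (ℵ_ α).IsSingular ∧ (ℵ_ α).IsStrongLimit ∧ ℵ₀ < (ℵ_ α).ord.cof) := by
  constructor
  · intro α hsing hstrong hcof
    obtain ⟨L, instL, hL, hcol⟩ := exists_colouring hstrong hcof hsing.cof_ord_lt
    refine ⟨L, instL, hL, fun M hM κ hκ => ?_⟩
    have hM' : #M = ℵ_ α := by
      rw [sum_eq hstrong (hcof.trans hsing.cof_ord_lt), lift_inj] at hM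
      exact hM
    obtain ⟨C, c, hC1, hC2, hc⟩ := hcol M hM'
    have hκ' : #C ≤ κ ∧ κ ≤ #(Set M) := by
      rcases hκ with h | h
      · refine ⟨?_, ?_⟩
        · rw [h]; exact hC2.le
        · rw [h, mk_set, hM']; exact (cantor _).le
      · exact ⟨hC1.trans_le h.1, h.2⟩
    have hC0 : ℵ₀ ≤ #C := by
      rw [hC1]
      refine le_trans ?_ (cantor _).le
      exact hcof.le.trans (self_le_power _ one_le_aleph0)
    obtain ⟨D, hD1, hD2, hD3⟩ := exists_partition c κ (hC0.trans hκ'.1) hκ'.1 hκ'.2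
    refine ⟨D, hD1, hD2, fun A hA => ?_⟩
    have key : ¬ Embeds L A := by
      rintro ⟨f, hf1, hf2⟩
      obtain ⟨x, y, hxy⟩ := hc (fun x => (f x).1) (by
        intro x y hlt
        have h1 : f x < f y :=
          lt_of_le_not_ge ((hf2 _ _).1 hlt.le) (fun h => absurd ((hf2 _ _).2 h) (not_le_of_gt hlt))
        exact h1)
      exact hxy (hD3 A hA _ (f x).2 _ (f y).2)
    exact ⟨key, fun hU => key (hU _ hL)⟩
  · intro δ
    obtain ⟨h1, h2, h3⟩ := example_beth δ
    obtain ⟨α, hα⟩ := Cardinal.mem_range_aleph_iff.2 (aleph0_le_beth (δ + ω₁))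
    refine ⟨α, ?_, hα, ?_⟩
    · have h4 : δ + ω₁ ≤ α := by
        rw [← aleph_le_aleph, hα]
        exact aleph_le_beth _
      exact lt_of_lt_of_le (lt_add_of_pos_right δ (Ordinal.omega_pos 1)) h4
    · rw [hα]
      exact ⟨h2, h1, by rw [h3]; exact aleph0_lt_aleph_one⟩

end Pool.Agent.Results.MP_d6c85c_lc.NoUniversallyOrderedClass
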